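import Pool.Agent.APK.Main

/-!
# Almost decomposing regular graphs of degree above `3n/4` into prescribed 2-factors

Every `2s`-regular graph `G` on `n ≥ n₀(ε, η)` vertices with `2s ≥ (3/4 + ε) n` is the edge-disjoint union of `s`
spanning 2-regular graphs, of which all but `η s` are isomorphic to prescribed 2-regular graphs.
-/

namespace Pool.Agent.Results.MP_767178_co.ApproxSharpDegree

open Finset Pool.Agent.APK
open scoped Classical

theorem card_eq_dg {n : ℕ} (G : SimpleGraph (Fin n)) (v : Fin n) :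
    Nat.card (G.neighborSet v) = dg G v := by
  rw [Nat.card_eq_fintype_card, dg, ← Fintype.card_subtype]
  exact Fintype.card_congr (Equiv.refl _)

theorem dg_iso {n : ℕ} {F H : SimpleGraph (Fin n)} (e : F ≃g H) (v : Fin n) : dg H (e v) = dg F v := by
  rw [dg, dg]
  symm
  apply Finset.card_bij (fun u _ => e u)
  · intro u hu
    simp only [mem_filter, mem_univ, true_and] at hu ⊢
    exact e.map_adj_iff.2 hu
  · intro a _ b _ h
    exact e.injective h
  · intro u hu
    refine ⟨e.symm u, ?_, by simp⟩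
    simp only [mem_filter, mem_univ, true_and] at hu ⊢
    rw [← e.map_adj_iff]
    simpa using hu

theorem dg_iSup {n t : ℕ} (H : Fin t → SimpleGraph (Fin n)) (hd : ∀ i j, i ≠ j → Disjoint (H i) (H j))
    (v : Fin n) : dg (⨆ i, H i) v = ∑ i, dg (H i) v := by
  rw [dg]
  have h1 : (univ.filter (fun u => (⨆ i, H i).Adj v u)) =
      univ.biUnion (fun i : Fin t => univ.filter (fun u => (H i).Adj v u)) := by
    ext u
    simp [SimpleGraph.iSup_adj]
  rw [h1, card_biUnion]
  · rfl
  · intro i _ j _ hij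
    simp only [Function.onFun]
    rw [Finset.disjoint_left]
    intro u hu hu'
    simp only [mem_filter, mem_univ, true_and] at hu hu'
    have h2 := hd i j hij
    rw [SimpleGraph.disjoint_left] at h2
    exact h2 v u hu hu'

theorem dg_sdiff {n : ℕ} {G K : SimpleGraph (Fin n)} (h : K ≤ G) (v : Fin n) :
    dg (G \ K) v + dg K v = dg G v := by
  rw [dg, dg, dg, ← card_union_of_disjoint]
  · congr 1
    ext u
    simp only [mem_union, mem_filter, mem_univ, true_and, SimpleGraph.sdiff_adj]
    constructor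
    · rintro (h1 | h1)
      · exact h1.1
      · exact h h1
    · intro h1
      by_cases h2 : K.Adj v u
      · exact Or.inr h2
      · exact Or.inl ⟨h1, h2⟩
  · rw [Finset.disjoint_left]
    intro u hu hu'
    simp only [mem_filter, mem_univ, true_and, SimpleGraph.sdiff_adj] at hu hu'
    exact hu.2 hu'

/-- Let `ε, η > 0` and let `n` be large. Let `G` be a `2s`-regular graph on `n` vertices with `2s ≥ (3/4 + ε) n`
and let `F 0, …, F (s - 1)` be 2-regular graphs on `n` vertices. Then `G` is the edge-disjoint union of `s`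
spanning 2-regular graphs `H 0, …, H (s - 1)` with `H i` isomorphic to `F i` for all `i < (1 - η) s`. -/
theorem result :
    ∀ ε : ℝ, 0 < ε → ∀ η : ℝ, 0 < η → ∃ n₀ : ℕ, ∀ n : ℕ, n₀ ≤ n →
      ∀ (G : SimpleGraph (Fin n)) (s : ℕ),
        (∀ v, Nat.card (G.neighborSet v) = 2 * s) →
        (3 / 4 + ε) * (n : ℝ) ≤ 2 * (s : ℝ) →
        ∀ F : Fin s → SimpleGraph (Fin n),
          (∀ i v, Nat.card ((F i).neighborSet v) = 2) →
          ∃ H : Fin s → SimpleGraph (Fin n),
            (∀ i v, Nat.card ((H i).neighborSet v) = 2) ∧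
            (∀ i j, i ≠ j → Disjoint (H i) (H j)) ∧
            (⨆ i, H i) = G ∧
            ∀ i : Fin s, (i : ℝ) < (1 - η) * s → Nonempty (F i ≃g H i) := by
  intro ε hε η hη
  set η' : ℝ := min η 1 with hη'
  have hη'0 : 0 < η' := lt_min hη one_pos
  have hη'1 : η' ≤ 1 := min_le_right _ _
  have hη'2 : η' ≤ η := min_le_left _ _
  obtain ⟨n1, h1⟩ := approx ε (η' / 2) hε (by linarith)
  refine ⟨max n1 (⌈6 / η'⌉₊), ?_⟩
  intro n hn G s hG hs F hF
  have hn1 : n1 ≤ n := le_trans (le_max_left _ _) hn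
  have hn2 : 6 / η' ≤ (n : ℝ) := by
    have h2 : ⌈6 / η'⌉₊ ≤ n := le_trans (le_max_right _ _) hn
    exact le_trans (Nat.le_ceil _) (by exact_mod_cast h2)
  have hn0 : (0 : ℝ) ≤ n := Nat.cast_nonneg n
  have hs0 : (0 : ℝ) ≤ s := Nat.cast_nonneg s
  have hs1 : 3 / 4 * (n : ℝ) ≤ 2 * s := by nlinarith
  have hs2 : 2 ≤ η' * s := by
    rw [div_le_iff₀ hη'0] at hn2
    nlinarith
  set t : ℕ := ⌈(1 - η') * s⌉₊ with ht
  have ht0 : (0 : ℝ) ≤ (1 - η') * s := mul_nonneg (by linarith) hs0
  have ht1 : (1 - η') * s ≤ (t : ℝ) := Nat.le_ceil _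
  have ht2 : (t : ℝ) < (1 - η') * s + 1 := Nat.ceil_lt_add_one ht0
  have ht3 : (t : ℝ) ≤ (1 - η' / 2) * s := by nlinarith
  have hts : t ≤ s := by
    have h2 : (t : ℝ) ≤ s := by nlinarith
    exact_mod_cast h2
  have hGd : ∀ v, dg G v = 2 * s := fun v => by rw [← card_eq_dg]; exact hG v
  have hFd : ∀ i v, dg (F i) v = 2 := fun i v => by rw [← card_eq_dg]; exact hF i v
  obtain ⟨H, hH1, hH2, hH3⟩ := h1 n hn1 G (2 * s) hGd (by push_cast; exact hs) t
    (fun i => F (Fin.castLE hts i)) (fun i v => hFd _ v) (by push_cast; nlinarith)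
  have hHd : ∀ i v, dg (H i) v = 2 := by
    intro i v
    obtain ⟨e⟩ := hH1 i
    have h2 := dg_iso e (e.symm v)
    rw [RelIso.apply_symm_apply] at h2
    rw [h2]
    exact hFd _ _
  have hsup : (⨆ i, H i) ≤ G := iSup_le hH2
  have hK : ∀ v, dg (G \ ⨆ i, H i) v = 2 * (s - t) := by
    intro v
    have h2 := dg_sdiff hsup v
    rw [dg_iSup H hH3 v, hGd v] at h2
    simp only [hHd, sum_const, card_univ, Fintype.card_fin, smul_eq_mul] at h2
    omega
  obtain ⟨Z, hZ1, hZ2, hZ3⟩ := petersen (G \ ⨆ i, H i) (s - t) hK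
  have hHZ : ∀ i j, Disjoint (H i) (Z j) := by
    intro i j
    rw [SimpleGraph.disjoint_left]
    intro u v hu hv
    have h2 : (G \ ⨆ i, H i).Adj u v := by
      rw [← hZ3, SimpleGraph.iSup_adj]
      exact ⟨j, hv⟩
    rw [SimpleGraph.sdiff_adj] at h2
    apply h2.2
    rw [SimpleGraph.iSup_adj]
    exact ⟨i, hu⟩
  have hlt : ∀ i : Fin s, ¬ i.val < t → i.val - t < s - t := by
    intro i hi
    have := i.2
    omega
  refine ⟨fun i => if h : i.val < t then H ⟨i.val, h⟩ else Z ⟨i.val - t, hlt i h⟩, ?_, ?_, ?_, ?_⟩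
  · intro i v
    by_cases h : i.val < t
    · simp only [dif_pos h]
      rw [card_eq_dg]
      exact hHd _ _
    · simp only [dif_neg h]
      rw [card_eq_dg]
      exact hZ1 _ _
  · intro i j hij
    have hij' : i.val ≠ j.val := fun h => hij (Fin.ext h)
    by_cases h : i.val < t <;> by_cases h' : j.val < t
    · simp only [dif_pos h, dif_pos h']
      apply hH3
      intro h2
      exact hij' (Fin.mk.inj_iff.1 h2)
    · simp only [dif_pos h, dif_neg h']
      exact hHZ _ _
    · simp only [dif_neg h, dif_pos h']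
      exact (hHZ _ _).symm
    · simp only [dif_neg h, dif_neg h']
      apply hZ2
      intro h2
      have h3 := Fin.mk.inj_iff.1 h2
      omega
  · ext u v
    rw [SimpleGraph.iSup_adj]
    constructor
    · rintro ⟨i, hi⟩
      by_cases h : i.val < t
      · simp only [dif_pos h] at hi
        exact hH2 _ hi
      · simp only [dif_neg h] at hi
        have h2 : (G \ ⨆ i, H i).Adj u v := by
          rw [← hZ3, SimpleGraph.iSup_adj]
          exact ⟨_, hi⟩
        rw [SimpleGraph.sdiff_adj] at h2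
        exact h2.1
    · intro huv
      by_cases h2 : (⨆ i, H i).Adj u v
      · rw [SimpleGraph.iSup_adj] at h2
        obtain ⟨i, hi⟩ := h2
        refine ⟨⟨i.val, lt_of_lt_of_le i.2 hts⟩, ?_⟩
        have h3 : i.val < t := i.2
        simp only [dif_pos h3]
        exact hi
      · have h3 : (G \ ⨆ i, H i).Adj u v := by
          rw [SimpleGraph.sdiff_adj]
          exact ⟨huv, h2⟩
        rw [← hZ3, SimpleGraph.iSup_adj] at h3
        obtain ⟨i, hi⟩ := h3
        refine ⟨⟨t + i.val, by have := i.2; omega⟩, ?_⟩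
        have h4 : ¬ t + i.val < t := by omega
        simp only [dif_neg h4]
        have h5 : (⟨t + i.val - t, by have := i.2; omega⟩ : Fin (s - t)) = i := by
          apply Fin.ext
          simp
        rw [h5]
        exact hi
  · intro i hi
    have h2 : (i : ℝ) < t := by
      have h3 : (1 - η) * (s : ℝ) ≤ (1 - η') * s := by nlinarith
      linarith
    have h3 : i.val < t := by exact_mod_cast h2
    simp only [dif_pos h3]
    exact hH1 ⟨i.val, h3⟩

end Pool.Agent.Results.MP_767178_co.ApproxSharpDegree
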